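import Pool.Graph.R_seed8.H370R2.DirGood
import Pool.Graph.R_seed8.Y745.LD.Asm2
import Pool.Graph.R_seed8.Y745.LD.CNT2
import Pool.Graph.R_seed8.Y954.LD.DERV
import Pool.Graph.R_seed8.Y448.LD.LOW
import Pool.Graph.R_seed8.Y833.SW.Di
import Pool.Graph.R_seed8.Y655.SW.Trk
import Pool.Graph.R_seed8.Y627.SW.MN
import Pool.Graph.R_seed8.Y840.SW.MVB
import Pool.Graph.R_seed8.Y655.SW.Har
import Pool.Graph.R_seed8.Y931.LD.VM1
import Pool.Graph.R_seed8.Y447.LD.VMR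
import Pool.Graph.R_seed8.Y665.LD.VMS
import Pool.Graph.R_seed8.Y363.LD.PW
import Pool.Graph.R_seed8.Y949.LD.G2M
import Pool.Graph.R_seed8.Y786.LD.KER2
import Pool.Graph.R_seed8.Y290.LD.DFU
import Pool.Graph.R_seed8.Y811.LD.VDQ
import Pool.Graph.R_seed8.Y210.LD.EFU
import Pool.Graph.R_seed8.Y732.LD.VSM
import Pool.Graph.R_seed8.Y871.LD.COST
import Pool.Graph.R_seed8.Y179.LD.Z1
import Pool.Graph.R_seed8.Y363.LD.ZL2
import Pool.Graph.R_seed8.Y674.LD.Z3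

/-!
# Large deviations of the derivative at the simple zeros of Hardy's function: assembly of the library
project LD, up to the two statements `P_G1M` and `P_ZUP`
-/

set_option autoImplicit false

namespace Pool.Agent.H395.LD

open Filter Pool.Agent.Y745 Pool.Agent.Y745.LD Pool.Agent.Y745.SW

theorem vm1 : P_VM1 := Y931.LD.t_VM1 Y840.SW.t_MVB

theorem vmr : P_VMR := Y447.LD.t_VMR Y840.SW.t_MVB

theorem vms : P_VMS := Y665.LD.t_VMS Y840.SW.t_MVB vm1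

theorem vmt : P_VMT := Y665.LD.t_VMT Y840.SW.t_MVB vm1

theorem vsm : P_VSM := Y732.LD.t_VSM vmr vms Y210.LD.t_EFU

theorem vblk : P_VBLK :=
  Y745.LD.vblk Y833.SW.t_DI Y655.SW.t_TRK Y627.SW.t_MN H370.good_zeta Y786.LD.t_KER2 Y290.LD.t_DFU
    (Y811.LD.t_VDQ vmr) Y210.LD.t_EFU vsm (t_CNT2 vsm) Y871.LD.t_COST

theorem zl2 : P_ZL2 := Y363.LD.t_ZL2 Y840.SW.t_MVB vm1 vmr vms Y179.LD.t_Z1

theorem low (hG1M : P_G1M) : P_LOW :=
  Y448.LD.t_LOW vm1 vmt Y363.LD.t_PW Y949.LD.t_G2M0 hG1M zl2 Y674.LD.t_Z3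

theorem derv (hG1M : P_G1M) (hZUP : P_ZUP) : P_DERV :=
  Y954.LD.t_DERV vm1 vmt Y363.LD.t_PW (low hG1M) hZUP Y655.SW.t_HAR

end Pool.Agent.H395.LD
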