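import Pool.Graph.R_pool_sql_team_seeded_1acbe0a2.Y24.Near
import Pool.Graph.R_seed8.Y745.LD.DefsB

set_option autoImplicit false

/-! `P_G1M`: at almost all heights all nearby zeros are near the critical line. -/

namespace Pool.Agent.H395.LD

open Filter Topology MeasureTheory Complex Pool.Agent.Y745.LD Pool.Agent.Y24 Pool.Agent.Y24.Near

noncomputable section

/-- the zeros of zeta are countable -/
lemma zeros_countable : {s : ℂ | riemannZeta s = 0}.Countable := by
  have hd : Differentiable ℂ Z1 := Z1_diff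
  have h1 : AnalyticOnNhd ℂ Z1 Set.univ := fun z _ => hd.analyticAt z
  have h2 : Z1 2 ≠ 0 := by
    rw [Z1_ne (by norm_num)]
    refine mul_ne_zero (by norm_num) (riemannZeta_ne_zero_of_one_le_re (by norm_num))
  have h3 := h1.preimage_zero_mem_codiscrete h2
  have h4 : {s : ℂ | riemannZeta s = 0} ⊆ (Z1 ⁻¹' {0}ᶜ)ᶜ := by
    intro s hs
    have hs1 : s ≠ 1 := by
      rintro rfl
      exact riemannZeta_ne_zero_of_one_le_re (by norm_num) hs
    simp only [Set.mem_compl_iff, Set.mem_preimage, Set.mem_singleton_iff, not_not]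
    rw [Z1_ne hs1, show riemannZeta s = 0 from hs, mul_zero]
  refine Set.Countable.mono h4 ?_
  exact (HereditarilyLindelofSpace.isLindelof _).countable_of_isDiscrete (mem_codiscrete'.mp h3).2

lemma G1_meas (r D T : ℝ) : MeasurableSet (G1 r D T) := by
  set B : Set ℂ := {s : ℂ | riemannZeta s = 0 ∧ 0 < s.re ∧ s.re < 1 ∧
    ¬ |s.re - 1 / 2| ≤ D * LL T / Real.log T} with hB
  have hBc : B.Countable := zeros_countable.mono fun s h => h.1
  have e : G1 r D T = (⋃ s ∈ B, {t : ℝ | |s.im - t| ≤ r * Real.log T})ᶜ := by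
    ext t
    simp only [Set.mem_compl_iff, Set.mem_iUnion, Set.mem_setOf_eq, not_exists, hB]
    constructor
    · rintro h s ⟨h1, h2, h3, h4⟩ h5
      exact h4 (h s h1 h2 h3 h5)
    · intro h s h1 h2 h3 h5
      by_contra h4
      exact h s ⟨h1, h2, h3, h4⟩ h5
  rw [e]
  refine (MeasurableSet.biUnion hBc fun s _ => ?_).compl
  refine measurableSet_le ?_ measurable_const
  fun_prop

/-- a zero has positive multiplicity -/
lemma one_le_m {s : ℂ} (h : riemannZeta s = 0) : 1 ≤ m s := by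
  have hs1 : s ≠ 1 := by
    rintro rfl
    exact riemannZeta_ne_zero_of_one_le_re (by norm_num) h
  have han := zeta_an hs1
  have h1 : analyticOrderAt riemannZeta s ≠ 0 := by
    intro h0
    exact han.analyticOrderAt_eq_zero.mp h0 h
  have h2 : analyticOrderAt riemannZeta s ≠ ⊤ := by
    intro h0
    rw [analyticOrderAt_eq_top] at h0
    have hA : AnalyticOnNhd ℂ riemannZeta {1}ᶜ := fun z hz => zeta_an hz
    have hpre : IsPreconnected ({1}ᶜ : Set ℂ) :=
      (isConnected_compl_singleton_of_one_lt_rank (by simp) (1:ℂ)).isPreconnected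
    have := hA.eqOn_zero_of_preconnected_of_eventuallyEq_zero hpre (z₀ := s) hs1 h0
    have h3 := this (show (2:ℂ) ∈ ({1}ᶜ : Set ℂ) by norm_num)
    exact riemannZeta_ne_zero_of_one_le_re (s := 2) (by norm_num) h3
  unfold m
  have h3 : 1 ≤ analyticOrderNatAt riemannZeta s := by
    rw [Nat.one_le_iff_ne_zero]
    intro h0
    unfold analyticOrderNatAt at h0
    rw [ENat.toNat_eq_zero] at h0
    tauto
  exact_mod_cast h3

/-- the total number of zeros -/
lemma cnt_Z_le : ∃ C : ℝ, 0 < C ∧ ∀ T : ℝ, 2 ≤ T → cnt (Z T) ≤ C * T * Real.log T := by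
  obtain ⟨C, hC, h⟩ := density (c := 1) (by norm_num)
  refine ⟨2 * C, by positivity, fun T hT => ?_⟩
  have h1 := h (1 / 2) T le_rfl (by norm_num) hT
  have h2 : cnt {ρ | ρ ∈ Z T ∧ 1 / 2 + 0 ≤ ρ.re} ≤ C * T * Real.log T := by
    refine (cnt_mono (S' := ZZ (1 / 2) T) ?_ h1.1).trans ?_
    · rintro ρ ⟨h1, h2⟩
      rw [add_zero] at h2
      exact ⟨h1.1, h2, h1.2.2.2.1, h1.2.2.2.2⟩
    · have h3 := h1.2
      rw [sub_self, mul_zero, sub_zero, Real.rpow_one] at h3
      exact h3
  have hA : {ρ | ρ ∈ Z T ∧ ρ.re ≤ 1 / 2 - 0}.Finite := (Z_fin T).subset fun _ h => h.1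
  have hB : {ρ | ρ ∈ Z T ∧ 1 / 2 + 0 ≤ ρ.re}.Finite := (Z_fin T).subset fun _ h => h.1
  have h3 : Z T ⊆ {ρ | ρ ∈ Z T ∧ ρ.re ≤ 1 / 2 - 0} ∪ {ρ | ρ ∈ Z T ∧ 1 / 2 + 0 ≤ ρ.re} := by
    intro ρ hρ
    rcases le_total ρ.re (1 / 2) with h4 | h4
    · left; exact ⟨hρ, by linarith⟩
    · right; exact ⟨hρ, by linarith⟩
  have h4 := (cnt_mono h3 (hA.union hB)).trans (cnt_union hA hB)
  rw [cnt_left] at h4
  linarith

theorem g1m : P_G1M := by
  intro r A' hr hA'
  obtain ⟨C1, hC1, hnear⟩ := near (c := 1) (by norm_num)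
  obtain ⟨C2, hC2, hZ⟩ := cnt_Z_le
  refine ⟨A' + 3, by linarith, fun D hD => ?_⟩
  have hlog := Real.tendsto_log_atTop
  have hloglog := hlog.comp hlog
  -- growth conditions
  have hlin : ∀ᶠ T : ℝ in atTop, r * Real.log T ≤ T / 2 := by
    have h1 := (Real.isLittleO_log_id_atTop).def (show 0 < 1 / (2 * r) by positivity)
    filter_upwards [h1, eventually_ge_atTop 1] with T h hT
    rw [Real.norm_of_nonneg (Real.log_nonneg hT), id, Real.norm_of_nonneg (by linarith)] at h
    calc r * Real.log T ≤ r * (1 / (2 * r) * T) := mul_le_mul_of_nonneg_left h hr.le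
      _ = T / 2 := by field_simp
  filter_upwards [hlin, eventually_ge_atTop 4, hlog.eventually_ge_atTop (96 * r * C1 * C2 + 2),
    hloglog.eventually_ge_atTop 0] with T hT1 hT2 hT3 hT4
  refine ⟨G1_meas r D T, ?_⟩
  have hTp : 0 < T := by linarith
  have hL : 2 ≤ Real.log T := by
    have : 0 ≤ 96 * r * C1 * C2 := by positivity
    linarith
  have hL0 : 0 < Real.log T := by linarith
  set R := r * Real.log T with hR
  have hR0 : 0 < R := by positivity
  set h := D * LL T with hh
  have hh0 : 0 ≤ h := mul_nonneg (by linarith) hT4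
  set B : Set ℂ := {ρ | ρ ∈ Z (3 * T) ∧ h / Real.log (3 * T) ≤ |ρ.re - 1 / 2|} with hB
  have hBf : B.Finite := (Z_fin (3 * T)).subset fun _ h => h.1
  have hL3 : Real.log T ≤ Real.log (3 * T) := Real.log_le_log hTp (by linarith)
  have hL3' : Real.log (3 * T) ≤ 2 * Real.log T := by
    rw [Real.log_mul (by norm_num) hTp.ne']
    have h3 : Real.log 3 ≤ 2 := by
      have := Real.log_le_sub_one_of_pos (show (0:ℝ) < 3 by norm_num)
      linarith
    linarith
  have hcov : Set.Icc T (2 * T) \ G1 r D T ⊆ ⋃ s ∈ hBf.toFinset, Set.Icc (s.im - R) (s.im + R) := by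
    rintro t ⟨ht, htG⟩
    simp only [G1, Set.mem_setOf_eq, not_forall] at htG
    obtain ⟨s, h1, h2, h3, h4, h5⟩ := htG
    simp only [Set.mem_iUnion]
    rw [abs_le] at h4
    refine ⟨s, ?_, ?_⟩
    · rw [Set.Finite.mem_toFinset]
      refine ⟨⟨h1, h2, h3, ?_, ?_⟩, ?_⟩
      · linarith [ht.1]
      · linarith [ht.2]
      · push Not at h5
        refine le_trans ?_ h5.le
        exact div_le_div_of_nonneg_left hh0 hL0 hL3
    · constructor <;> linarith [h4.1, h4.2]
  have hvol : volume.real (Set.Icc T (2 * T) \ G1 r D T) ≤ cnt B * (2 * R) := by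
    have h1 : volume.real (Set.Icc T (2 * T) \ G1 r D T) ≤
        volume.real (⋃ s ∈ hBf.toFinset, Set.Icc (s.im - R) (s.im + R)) := by
      refine measureReal_mono hcov ?_
      refine ne_of_lt (lt_of_le_of_lt (measure_biUnion_finset_le _ _) ?_)
      refine ENNReal.sum_lt_top.mpr fun s _ => ?_
      rw [Real.volume_Icc]
      exact ENNReal.ofReal_lt_top
    refine h1.trans ((measureReal_biUnion_finset_le _ _).trans ?_)
    rw [cnt_eq hBf, Finset.sum_mul]
    refine Finset.sum_le_sum fun s hs => ?_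
    rw [Set.Finite.mem_toFinset] at hs
    rw [Real.volume_real_Icc_of_le (by linarith)]
    have := one_le_m hs.1.1
    nlinarith
  have h3 : cnt B ≤ C1 * Real.exp (-(1 * h)) * cnt (Z (3 * T)) :=
    hnear (3 * T) h (by linarith) hh0
  have h4 := hZ (3 * T) (by linarith)
  have h5 : cnt B ≤ C1 * Real.exp (-h) * (C2 * (3 * T) * (2 * Real.log T)) := by
    rw [one_mul] at h3
    refine h3.trans ?_
    refine mul_le_mul_of_nonneg_left (h4.trans ?_) (by positivity)
    exact mul_le_mul_of_nonneg_left hL3' (by positivity)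
  have h6 : Real.exp (-h) ≤ Real.log T ^ (-(A' + 3)) := by
    rw [Real.rpow_def_of_pos hL0]
    apply Real.exp_le_exp.mpr
    have h7 : (A' + 3) * LL T ≤ D * LL T := mul_le_mul_of_nonneg_right hD hT4
    have h8 : Real.log (Real.log T) = LL T := rfl
    rw [h8, hh]
    linarith
  have h7 : Real.log T ^ (-(A' + 3)) = (Real.log T ^ A')⁻¹ * (Real.log T ^ 3)⁻¹ := by
    rw [Real.rpow_neg hL0.le, Real.rpow_add hL0, mul_inv]
    congr 2
    exact_mod_cast Real.rpow_natCast (Real.log T) 3
  have hLA : 0 < Real.log T ^ A' := Real.rpow_pos_of_pos hL0 _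
  calc volume.real (Set.Icc T (2 * T) \ G1 r D T) ≤ cnt B * (2 * R) := hvol
    _ ≤ (C1 * Real.exp (-h) * (C2 * (3 * T) * (2 * Real.log T))) * (2 * R) :=
        mul_le_mul_of_nonneg_right h5 (by positivity)
    _ ≤ (C1 * ((Real.log T ^ A')⁻¹ * (Real.log T ^ 3)⁻¹) * (C2 * (3 * T) * (2 * Real.log T))) * (2 * R) := by
        rw [← h7]
        gcongr
    _ = T / Real.log T ^ A' * (12 * r * C1 * C2 / Real.log T) := by
        rw [hR]
        field_simp
        ring
    _ ≤ T / Real.log T ^ A' * 1 := by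
        refine mul_le_mul_of_nonneg_left ?_ (by positivity)
        rw [div_le_one hL0]
        have : 0 ≤ r * C1 * C2 := by positivity
        nlinarith
    _ = T / Real.log T ^ A' := mul_one _

end

end Pool.Agent.H395.LD
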