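import Pool.Agent.H395.LD.ZupB

set_option autoImplicit false

/-! `P_ZUP`: upper bounds for zeta near the critical line at almost all heights. -/

namespace Pool.Agent.H395.LD

open Filter Topology MeasureTheory Complex Pool.Agent.Y24 Pool.Agent.Y745.LD

noncomputable section

/-- the mean square on the critical line -/
lemma mean_square (hZ3 : P_Z3) : ∀ᶠ T : ℝ in atTop,
    ∫ t in T..(2 * T), ‖riemannZeta (1 / 2 + t * I)‖ ^ 2 ≤ T * Real.log T ^ (2 : ℝ) := by
  obtain ⟨A0, h⟩ := hZ3 0 (1 / 2) (by norm_num) (by norm_num)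
  have h1 := h A0 le_rfl 1 (by norm_num)
  filter_upwards [h1] with T hT
  have hV : ∀ t : ℝ, V 0 (1 / 2) A0 T t = 1 := by
    intro t
    unfold V Qk tex
    rw [Finset.sum_eq_single 0]
    · simp
    · intro j _ hj
      rw [Complex.ofReal_zero, zero_mul, zero_pow hj, zero_div]
    · intro h; simp at h
  simp_rw [hV, one_mul] at hT
  have e : (2 * 0 + 0 ^ 2 : ℝ) * sc (1 / 2) T = 0 := by ring
  rw [e, Real.exp_zero, mul_one] at hT
  have e2 : (1 + 1 : ℝ) = 2 := by norm_num
  rwa [e2] at hT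

lemma mean_square' (hZ3 : P_Z3) : ∀ᶠ T : ℝ in atTop,
    ∫ t in (T / 2)..(4 * T), ‖riemannZeta (1 / 2 + t * I)‖ ^ 2 ≤ T * Real.log T ^ (3 : ℝ) := by
  have h := mean_square hZ3
  have h1 : Tendsto (fun T : ℝ => T / 2) atTop atTop := tendsto_id.atTop_div_const (by norm_num)
  have h2 : Tendsto (fun T : ℝ => 2 * T) atTop atTop := tendsto_id.const_mul_atTop (by norm_num)
  filter_upwards [h, h1.eventually h, h2.eventually h, eventually_ge_atTop 4,
    Real.tendsto_log_atTop.eventually_ge_atTop 16] with T ha hb hc hT hL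
  have hTp : 0 < T := by linarith
  have hL0 : 0 < Real.log T := by linarith
  have hcont : Continuous fun t : ℝ => ‖riemannZeta (1 / 2 + t * I)‖ ^ 2 := zeta_line_cont.norm.pow 2
  have e1 : 2 * (T / 2) = T := by ring
  have e2 : 2 * (2 * T) = 4 * T := by ring
  rw [e1] at hb
  rw [e2] at hc
  rw [← intervalIntegral.integral_add_adjacent_intervals (hcont.intervalIntegrable (T / 2) T)
    (hcont.intervalIntegrable T (4 * T)),
    ← intervalIntegral.integral_add_adjacent_intervals (hcont.intervalIntegrable T (2 * T))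
    (hcont.intervalIntegrable (2 * T) (4 * T))]
  have l1 : Real.log (T / 2) ^ (2:ℝ) ≤ Real.log T ^ (2:ℝ) := by
    refine Real.rpow_le_rpow (Real.log_nonneg (by linarith)) ?_ (by norm_num)
    exact Real.log_le_log (by linarith) (by linarith)
  have l2 : Real.log (2 * T) ^ (2:ℝ) ≤ 4 * Real.log T ^ (2:ℝ) := by
    have h3 : Real.log (2 * T) ≤ 2 * Real.log T := by
      rw [Real.log_mul (by norm_num) hTp.ne']
      have := Real.log_le_log (show (0:ℝ) < 2 by norm_num) (show (2:ℝ) ≤ T by linarith)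
      linarith
    have h4 := Real.rpow_le_rpow (Real.log_nonneg (by linarith)) h3 (show (0:ℝ) ≤ 2 by norm_num)
    rw [Real.mul_rpow (by norm_num) hL0.le] at h4
    have e5 : (2:ℝ) ^ (2:ℝ) = 4 := by norm_num
    rwa [e5] at h4
  have l3 : Real.log T ^ (3:ℝ) = Real.log T ^ (2:ℝ) * Real.log T := by
    rw [show (3:ℝ) = 2 + 1 by norm_num, Real.rpow_add hL0, Real.rpow_one]
  have l4 : 0 < Real.log T ^ (2:ℝ) := Real.rpow_pos_of_pos hL0 _
  rw [l3]
  have b1 : T / 2 * Real.log (T / 2) ^ (2:ℝ) ≤ T / 2 * Real.log T ^ (2:ℝ) :=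
    mul_le_mul_of_nonneg_left l1 (by linarith)
  have b2 : 2 * T * Real.log (2 * T) ^ (2:ℝ) ≤ 2 * T * (4 * Real.log T ^ (2:ℝ)) :=
    mul_le_mul_of_nonneg_left l2 (by linarith)
  have b3 : T * (Real.log T ^ (2:ℝ) * 16) ≤ T * (Real.log T ^ (2:ℝ) * Real.log T) := by gcongr
  have b4 : 0 < T * Real.log T ^ (2:ℝ) := by positivity
  nlinarith

/-- joint continuity -/
lemma Kf_cont2 : Continuous (Function.uncurry fun (t u : ℝ) =>
    ‖riemannZeta (1 / 2 + u * I)‖ ^ 2 * (1 / (1 + (u - t) ^ 2))) := by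
  unfold Function.uncurry
  refine Continuous.mul ((zeta_line_cont.comp continuous_snd).norm.pow 2) ?_
  refine continuous_const.div (by fun_prop) fun p => ?_
  positivity

lemma Kf_cont (T : ℝ) : Continuous (Kf T) := by
  unfold Kf
  exact intervalIntegral.continuous_parametric_intervalIntegral_of_continuous' Kf_cont2 _ _

lemma Kf_nonneg {T : ℝ} (hT : 0 ≤ T) (t : ℝ) : 0 ≤ Kf T t :=
  intervalIntegral.integral_nonneg (by linarith) fun u _ => by positivity

lemma Kf_int {T : ℝ} (hT : 0 ≤ T) : ∫ t in Set.Icc T (2 * T), Kf T t ≤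
    Real.pi * ∫ u in (T / 2)..(4 * T), ‖riemannZeta (1 / 2 + u * I)‖ ^ 2 := by
  have h1 : ∫ t in Set.Icc T (2 * T), Kf T t = ∫ t in Set.Icc T (2 * T), ∫ u in Set.Icc (T / 2) (4 * T),
      ‖riemannZeta (1 / 2 + u * I)‖ ^ 2 * (1 / (1 + (u - t) ^ 2)) := by
    congr 1
    funext t
    unfold Kf
    rw [intervalIntegral.integral_of_le (by linarith), integral_Icc_eq_integral_Ioc]
  rw [h1]
  have hint : Integrable (Function.uncurry fun (t u : ℝ) =>
      ‖riemannZeta (1 / 2 + u * I)‖ ^ 2 * (1 / (1 + (u - t) ^ 2)))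
      ((volume.restrict (Set.Icc T (2 * T))).prod (volume.restrict (Set.Icc (T / 2) (4 * T)))) := by
    rw [Measure.prod_restrict]
    exact Kf_cont2.continuousOn.integrableOn_compact (isCompact_Icc.prod isCompact_Icc)
  rw [integral_integral_swap hint, intervalIntegral.integral_of_le (by linarith),
    ← integral_Icc_eq_integral_Ioc, ← integral_const_mul]
  refine setIntegral_mono_on hint.integral_prod_right ?_ measurableSet_Icc fun u _ => ?_
  · exact ((zeta_line_cont.norm.pow 2).const_mul _).integrableOn_Icc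
  · rw [integral_const_mul, mul_comm]
    refine mul_le_mul_of_nonneg_right ?_ (by positivity)
    have h2 : ∀ t : ℝ, 1 / (1 + (u - t) ^ 2) = 1 / (1 + (t - u) ^ 2) := by
      intro t
      rw [show (u - t) ^ 2 = (t - u) ^ 2 by ring]
    simp_rw [h2]
    rw [← int_cauchy_val u]
    exact setIntegral_le_integral (int_cauchy u) (Eventually.of_forall fun t => by
      simp only [Pi.zero_apply]; positivity)

theorem zup (hZ3 : P_Z3) : P_ZUP := by
  intro A' hA'
  obtain ⟨M1, hM1⟩ := hp_point
  obtain ⟨M2, hM2⟩ := Jf_le_Kf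
  obtain ⟨M3, hM3⟩ := Jf_left
  set M : ℕ := max (max M1 M2) M3 with hM
  have ha : M1 ≤ M + 1 := by omega
  have hb : M2 ≤ M := by omega
  have hc : M3 ≤ M := by omega
  obtain ⟨K, hK, hleft⟩ := hM3 M hc
  have hpi := Real.pi_pos
  have hlog := Real.tendsto_log_atTop
  refine ⟨A' + 10, by linarith, ?_⟩
  set K2 : ℝ := 4 * (4 ^ (M + 1) * (K * (3744 * Real.pi + 2))) with hK2
  have hK2p : 0 < K2 := by positivity
  filter_upwards [hleft, mean_square' hZ3, eventually_ge_atTop 200, hlog.eventually_ge_atTop 16,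
    hlog.eventually_ge_atTop K2, hlog.eventually_ge_atTop Real.pi] with T hl hms hT hL hLK hLpi
  have hTp : 0 < T := by linarith
  have hL0 : 0 < Real.log T := by linarith
  have hL1 : 1 ≤ Real.log T := by linarith
  set lam : ℝ := Real.log T ^ (A' + 4) with hlam
  have hlam0 : 0 < lam := Real.rpow_pos_of_pos hL0 _
  refine ⟨{t ∈ Set.Icc T (2 * T) | lam ≤ Kf T t}, ?_, fun t h => h.1, ?_, ?_⟩
  · exact measurableSet_Icc.inter (measurableSet_le measurable_const (Kf_cont T).measurable)
  · -- the measure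
    have h1 := mul_meas_ge_le_integral_of_nonneg (μ := volume.restrict (Set.Icc T (2 * T))) (f := Kf T)
      (Eventually.of_forall fun t => Kf_nonneg hTp.le t) ((Kf_cont T).integrableOn_Icc) lam
    have h2 : (volume.restrict (Set.Icc T (2 * T))).real {x | lam ≤ Kf T x} =
        volume.real {t ∈ Set.Icc T (2 * T) | lam ≤ Kf T t} := by
      rw [measureReal_restrict_apply (measurableSet_le measurable_const (Kf_cont T).measurable)]
      congr 1
      ext t
      constructor
      · rintro ⟨a, b⟩; exact ⟨b, a⟩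
      · rintro ⟨a, b⟩; exact ⟨b, a⟩
    rw [h2] at h1
    have h3 := h1.trans (Kf_int hTp.le)
    have h4 : lam * volume.real {t ∈ Set.Icc T (2 * T) | lam ≤ Kf T t} ≤
        Real.log T * (T * Real.log T ^ (3:ℝ)) := by
      refine h3.trans ?_
      refine mul_le_mul hLpi hms ?_ hL0.le
      exact intervalIntegral.integral_nonneg (by linarith) fun u _ => by positivity
    have h5 : lam = Real.log T ^ A' * (Real.log T * Real.log T ^ (3:ℝ)) := by
      rw [hlam, Real.rpow_add hL0, show (4:ℝ) = 1 + 3 by norm_num, Real.rpow_add hL0, Real.rpow_one]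
    have hLA : 0 < Real.log T ^ A' := Real.rpow_pos_of_pos hL0 _
    have hL3 : 0 < Real.log T ^ (3:ℝ) := Real.rpow_pos_of_pos hL0 _
    rw [le_div_iff₀ hLA]
    have h6 : (Real.log T * Real.log T ^ (3:ℝ)) *
        (volume.real {t ∈ Set.Icc T (2 * T) | lam ≤ Kf T t} * Real.log T ^ A') ≤
        (Real.log T * Real.log T ^ (3:ℝ)) * T := by
      calc _ = lam * volume.real {t ∈ Set.Icc T (2 * T) | lam ≤ Kf T t} := by rw [h5]; ring
        _ ≤ _ := h4
        _ = _ := by ring
    exact le_of_mul_le_mul_left h6 (by positivity)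
  · intro t ht htE z hz
    have htT : t ∈ Set.Icc T (2 * T) := ⟨by linarith [ht.1], by linarith [ht.2]⟩
    have hKt : Kf T t < lam := by
      by_contra hcon
      exact htE ⟨htT, not_lt.mp hcon⟩
    have hJ := hM2 M hb T t (by linarith) htT
    set τ := z.im with hτ
    set x : ℝ := z.re - (1 / 2 - 2 / Real.log T) with hx
    have hd : ‖z - (1 / 2 + t * I)‖ ≤ 1 / Real.log T := hz
    have hL16 : 1 / Real.log T ≤ 1 / 16 := one_div_le_one_div_of_le (by norm_num) hL
    have h1 : |z.re - 1 / 2| ≤ 1 / Real.log T := by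
      have := (Complex.abs_re_le_norm (z - (1 / 2 + t * I))).trans hd
      have e : (z - (1 / 2 + t * I)).re = z.re - 1 / 2 := by simp
      rwa [e] at this
    have h2 : |τ - t| ≤ 1 / Real.log T := by
      have := (Complex.abs_im_le_norm (z - (1 / 2 + t * I))).trans hd
      have e : (z - (1 / 2 + t * I)).im = z.im - t := by simp
      rwa [e] at this
    have h2' : |τ - t| ≤ 1 := by linarith
    have h3 := abs_le.mp h1
    have e2 : 2 / Real.log T = 2 * (1 / Real.log T) := by ring
    have hx1 : 1 / Real.log T ≤ x := by rw [hx, e2]; linarith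
    have hx2 : x ≤ 1 := by rw [hx, e2]; linarith
    have hi : 0 < 1 / Real.log T := by positivity
    have hx0 : 0 < x := by linarith
    have hxinv : x⁻¹ ≤ Real.log T := by
      rw [inv_le_comm₀ hx0 hL0, ← one_div]; exact hx1
    have hσ : 0 ≤ 1 / 2 - 2 / Real.log T := by rw [e2]; linarith
    have h4 := hM1 (M + 1) ha (1 / 2 - 2 / Real.log T) hσ x hx0 hx2 τ
    have ez : (((1 / 2 - 2 / Real.log T + x : ℝ)) : ℂ) + τ * I = z := by
      have : 1 / 2 - 2 / Real.log T + x = z.re := by rw [hx]; ring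
      rw [this, hτ]
      exact Complex.re_add_im z
    rw [ez] at h4
    have h5 := hl t htT τ h2'
    have h6 := abs_le.mp h2'
    have h7 := zeta_le_GG (w := z) (by rw [← hτ]; linarith [ht.1])
    have hJK : Jf M (1 / 2) t ≤ 3744 * Real.pi + lam := by linarith
    have hlam1 : 1 ≤ lam := Real.one_le_rpow hL1 (by linarith)
    have h8 : 1 + Real.log T * Jf M (1 / 2) t ≤ (3744 * Real.pi + 2) * (Real.log T * lam) := by
      have a1 : Real.log T * Jf M (1 / 2) t ≤ Real.log T * (3744 * Real.pi + lam) := by gcongr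
      have a2 : 1 ≤ Real.log T * lam := by nlinarith
      have a3 : Real.log T * (3744 * Real.pi) ≤ Real.log T * lam * (3744 * Real.pi) := by
        have : Real.log T ≤ Real.log T * lam := by nlinarith
        gcongr
      nlinarith
    have h9 : ‖GG z‖ ^ 2 ≤ 4 ^ (M + 1) * Real.log T * (K * ((3744 * Real.pi + 2) * (Real.log T * lam))) := by
      refine h4.trans ?_
      have := Jf_nonneg (M + 1) (1 / 2 - 2 / Real.log T) τ
      have h10 : Jf (M + 1) (1 / 2 - 2 / Real.log T) τ ≤ K * ((3744 * Real.pi + 2) * (Real.log T * lam)) :=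
        h5.trans (mul_le_mul_of_nonneg_left h8 hK.le)
      gcongr
    have h10 : ‖riemannZeta z‖ ^ 2 ≤ K2 * (Real.log T ^ 2 * lam) := by
      calc ‖riemannZeta z‖ ^ 2 ≤ (2 * ‖GG z‖) ^ 2 := pow_le_pow_left₀ (norm_nonneg _) h7 2
        _ = 4 * ‖GG z‖ ^ 2 := by ring
        _ ≤ 4 * (4 ^ (M + 1) * Real.log T * (K * ((3744 * Real.pi + 2) * (Real.log T * lam)))) := by gcongr
        _ = K2 * (Real.log T ^ 2 * lam) := by rw [hK2]; ring
    have h11 : K2 * (Real.log T ^ 2 * lam) ≤ Real.log T ^ (A' + 7) := by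
      have e7 : Real.log T ^ (A' + 7) = Real.log T ^ 3 * lam := by
        rw [hlam, show A' + 7 = 3 + (A' + 4) by ring, Real.rpow_add hL0]
        congr 1
        exact_mod_cast Real.rpow_natCast (Real.log T) 3
      rw [e7]
      calc K2 * (Real.log T ^ 2 * lam) ≤ Real.log T * (Real.log T ^ 2 * lam) := by gcongr
        _ = _ := by ring
    have h12 : Real.log T ^ (A' + 7) ≤ (Real.log T ^ (A' + 10)) ^ 2 := by
      rw [← Real.rpow_natCast, ← Real.rpow_mul hL0.le]
      refine Real.rpow_le_rpow_of_exponent_le hL1 ?_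
      push_cast
      linarith
    exact le_of_sq_le_sq (h10.trans (h11.trans h12)) (by positivity)

end

end Pool.Agent.H395.LD
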