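import Pool.Graph.R_seed8.W184.HP
import Pool.Graph.R_seed8.W184.ZetaB
import Pool.Graph.R_seed8.Y24.D2

set_option autoImplicit false

/-! Local bounds for zeta near the critical line, in terms of the mean square on the critical line. -/

namespace Pool.Agent.H395.LD

open Filter Topology MeasureTheory Complex Pool.Agent.Y24

noncomputable section

/-- `(w - 1) ζ(w) / (w + 1)` -/
def GG (w : ℂ) : ℂ := Z1 w / (w + 1)

lemma one_le_add {w : ℂ} (h : 0 ≤ w.re) : 1 ≤ ‖w + 1‖ := by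
  have h1 := Complex.abs_re_le_norm (w + 1)
  rw [Complex.add_re, Complex.one_re, abs_of_nonneg (by linarith)] at h1
  linarith

lemma GG_growth : ∃ (C : ℝ) (B : ℕ), 0 < C ∧ ∀ w : ℂ, 0 ≤ w.re → ‖GG w‖ ≤ C * (1 + ‖w‖) ^ B := by
  obtain ⟨C1, B, hC1, h1⟩ := Z1_growth 3
  obtain ⟨C2, hC2, h2⟩ := Pool.Agent.H448R2.GC.X1.zeta_bdd
  refine ⟨C1 + C2, B + 1, by positivity, fun w hw => ?_⟩
  have hn : 0 ≤ ‖w‖ := norm_nonneg w
  have h3 : ‖GG w‖ ≤ ‖Z1 w‖ := by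
    unfold GG
    rw [norm_div]
    exact div_le_self (norm_nonneg _) (one_le_add hw)
  refine h3.trans ?_
  rcases le_or_gt w.re 3 with h | h
  · refine (h1 w hw h).trans ?_
    have h4 : 1 + |w.im| ≤ 1 + ‖w‖ := by
      have := Complex.abs_im_le_norm w
      linarith
    calc C1 * (1 + |w.im|) ^ B ≤ C1 * (1 + ‖w‖) ^ B := by gcongr
      _ ≤ (C1 + C2) * (1 + ‖w‖) ^ (B + 1) := by
        gcongr
        · linarith
        · linarith
        · omega
  · have hne : w ≠ 1 := by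
      intro h'; rw [h'] at h; norm_num at h
    rw [Z1_ne hne, norm_mul]
    have e1 : ‖w - 1‖ ≤ 1 + ‖w‖ := by
      have := norm_sub_le w 1
      rw [norm_one] at this
      linarith
    have e2 := h2 w (by linarith)
    have e3 : (1 + ‖w‖) ≤ (1 + ‖w‖) ^ (B + 1) := le_self_pow₀ (by linarith) (by omega)
    calc ‖w - 1‖ * ‖riemannZeta w‖ ≤ (1 + ‖w‖) * C2 :=
          mul_le_mul e1 e2 (norm_nonneg _) (by positivity)
      _ = C2 * (1 + ‖w‖) := by ring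
      _ ≤ (C1 + C2) * (1 + ‖w‖) ^ (B + 1) := by
        gcongr
        linarith

lemma GG_diff {w : ℂ} (h : -1 < w.re) : DifferentiableAt ℂ GG w := by
  unfold GG
  refine (Z1_diff w).div (by fun_prop) ?_
  intro h0
  have := congrArg Complex.re h0
  simp at this
  linarith

lemma GG_line {σ : ℝ} (hσ : 0 ≤ σ) : Continuous fun u : ℝ => GG ((σ : ℂ) + u * I) := by
  refine continuous_iff_continuousAt.mpr fun y => ?_
  have hd := (GG_diff (w := (σ : ℂ) + (y : ℂ) * I) (by simp; linarith)).continuousAt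
  exact ContinuousAt.comp (f := fun y : ℝ => (σ : ℂ) + (y : ℂ) * I) hd (by fun_prop)

/-- the weighted local mean square -/
def Jf (M : ℕ) (σ τ : ℝ) : ℝ := ∫ u : ℝ, ‖GG ((σ : ℂ) + u * I)‖ ^ 2 / (1 + (u - τ) ^ 2) ^ M

lemma Jf_int : ∃ M0 : ℕ, ∀ M : ℕ, M0 ≤ M → ∀ σ : ℝ, 0 ≤ σ → ∀ τ : ℝ,
    Integrable fun u : ℝ => ‖GG ((σ : ℂ) + u * I)‖ ^ 2 / (1 + (u - τ) ^ 2) ^ M := by
  obtain ⟨C, B, hC, h⟩ := GG_growth
  refine ⟨B + 1, fun M hM σ hσ τ => ?_⟩
  set K : ℝ := 1 + σ + |τ| with hK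
  have hK1 : 1 ≤ K := by
    have := abs_nonneg τ
    linarith
  have hi : Integrable fun u : ℝ => C ^ 2 * (K ^ (2 * B) * 2 ^ B) * (1 / (1 + (u - τ) ^ 2)) := by
    have h1 := (integrable_inv_one_add_sq.comp_sub_right τ).const_mul (C ^ 2 * (K ^ (2 * B) * 2 ^ B))
    simpa [one_div] using h1
  refine hi.mono' ?_ (Eventually.of_forall fun u => ?_)
  · refine Continuous.aestronglyMeasurable ?_
    refine ((GG_line hσ).norm.pow 2).div (by fun_prop) fun u => ?_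
    positivity
  · rw [Real.norm_of_nonneg (by positivity)]
    set v := u - τ with hv
    have h1 := h ((σ : ℂ) + u * I) (by simpa using hσ)
    have h2 : 1 + ‖(σ : ℂ) + u * I‖ ≤ K * (1 + |v|) := by
      have a1 := Complex.norm_le_abs_re_add_abs_im ((σ : ℂ) + u * I)
      have a2 : ((σ : ℂ) + u * I).re = σ := by simp
      have a3 : ((σ : ℂ) + u * I).im = u := by simp
      rw [a2, a3, abs_of_nonneg hσ] at a1
      have a4 : |u| ≤ |v| + |τ| := by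
        have : u = v + τ := by rw [hv]; ring
        calc |u| = |v + τ| := by rw [← this]
          _ ≤ _ := abs_add_le _ _
      have a5 := abs_nonneg v
      nlinarith
    have h3 : (1 + |v|) ^ 2 ≤ 2 * (1 + v ^ 2) := by
      have := sq_abs v
      nlinarith [sq_nonneg (|v| - 1)]
    have h4 : ‖GG ((σ : ℂ) + u * I)‖ ^ 2 ≤ C ^ 2 * (K ^ (2 * B) * 2 ^ B) * (1 + v ^ 2) ^ B := by
      calc ‖GG ((σ : ℂ) + u * I)‖ ^ 2 ≤ (C * (K * (1 + |v|)) ^ B) ^ 2 := by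
            have := h1.trans (mul_le_mul_of_nonneg_left (pow_le_pow_left₀ (by positivity) h2 B) hC.le)
            exact pow_le_pow_left₀ (norm_nonneg _) this 2
        _ = C ^ 2 * K ^ (2 * B) * ((1 + |v|) ^ 2) ^ B := by
            rw [mul_pow K, mul_pow C, mul_pow (K ^ B), ← pow_mul, ← pow_mul, ← pow_mul, mul_comm B 2]
            ring
        _ ≤ C ^ 2 * K ^ (2 * B) * (2 * (1 + v ^ 2)) ^ B := by gcongr
        _ = _ := by rw [mul_pow]; ring
    have hv1 : 1 ≤ 1 + v ^ 2 := by nlinarith [sq_nonneg v]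
    rw [div_le_iff₀ (by positivity)]
    refine h4.trans ?_
    have h5 : (1 + v ^ 2) ^ B * (1 + v ^ 2) ≤ (1 + v ^ 2) ^ M := by
      rw [← pow_succ]
      exact pow_le_pow_right₀ hv1 hM
    calc C ^ 2 * (K ^ (2 * B) * 2 ^ B) * (1 + v ^ 2) ^ B =
        C ^ 2 * (K ^ (2 * B) * 2 ^ B) * (1 / (1 + v ^ 2)) * ((1 + v ^ 2) ^ B * (1 + v ^ 2)) := by
          field_simp
      _ ≤ C ^ 2 * (K ^ (2 * B) * 2 ^ B) * (1 / (1 + v ^ 2)) * (1 + v ^ 2) ^ M := by gcongr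

/-- the value at a point to the right of a line -/
theorem hp_point : ∃ M0 : ℕ, ∀ M : ℕ, M0 ≤ M → ∀ σ : ℝ, 0 ≤ σ → ∀ x : ℝ, 0 < x → x ≤ 1 → ∀ τ : ℝ,
    ‖GG (((σ + x : ℝ) : ℂ) + τ * I)‖ ^ 2 ≤ 4 ^ M * x⁻¹ * Jf M σ τ := by
  obtain ⟨C, B, hC, h⟩ := GG_growth
  obtain ⟨M0, hM0⟩ := Jf_int
  refine ⟨max M0 B, fun M hM σ hσ x hx hx1 τ => ?_⟩
  have hMB : B ≤ M := (le_max_right _ _).trans hM
  have hint := hM0 M ((le_max_left _ _).trans hM) σ hσ τ
  set s₀ : ℂ := (σ : ℂ) + τ * I with hs₀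
  set F : ℂ → ℂ := fun s => GG s / (1 + (s - s₀)) ^ M with hF
  set g : ℂ → ℂ := fun w => F (s₀ + x * w) with hg
  have hre : ∀ w : ℂ, (s₀ + x * w).re = σ + x * w.re := by
    intro w; simp [hs₀]
  have hge1 : ∀ w : ℂ, 0 ≤ w.re → 1 ≤ ‖1 + (s₀ + x * w - s₀)‖ := by
    intro w hw
    have h1 := Complex.abs_re_le_norm (1 + (s₀ + x * w - s₀))
    have h2 : (1 + (s₀ + x * w - s₀)).re = 1 + x * w.re := by simp
    rw [h2, abs_of_nonneg (by positivity)] at h1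
    have : 0 ≤ x * w.re := by positivity
    linarith
  have hgd : ∀ w : ℂ, 0 ≤ w.re → DifferentiableAt ℂ g w := by
    intro w hw
    have hne : (1 + (s₀ + x * w - s₀)) ^ M ≠ 0 := by
      apply pow_ne_zero
      intro h0
      have := hge1 w hw
      rw [h0, norm_zero] at this
      linarith
    have h1 : DifferentiableAt ℂ (fun w : ℂ => GG (s₀ + x * w)) w := by
      have a1 : DifferentiableAt ℂ GG (s₀ + x * w) := GG_diff (by
        rw [hre]
        have : 0 ≤ x * w.re := by positivity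
        linarith)
      have a2 : DifferentiableAt ℂ (fun w : ℂ => s₀ + x * w) w := by fun_prop
      exact DifferentiableAt.comp w a1 a2
    exact h1.div (by fun_prop) hne
  have hb : ∀ w : ℂ, 0 < w.re → ‖g w‖ ≤ C * (‖s₀‖ + 3) ^ B := by
    intro w hw
    have h1 := hge1 w hw.le
    have h2 := h (s₀ + x * w) (by rw [hre]; positivity)
    have h3 : 1 + ‖s₀ + x * w‖ ≤ (‖s₀‖ + 3) * ‖1 + (s₀ + x * w - s₀)‖ := by
      have e : s₀ + x * w = (1 + (s₀ + x * w - s₀)) + (s₀ - 1) := by ring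
      have a1 : ‖s₀ + x * w‖ ≤ ‖1 + (s₀ + x * w - s₀)‖ + ‖s₀ - 1‖ := by
        conv_lhs => rw [e]
        exact norm_add_le _ _
      have a2 : ‖s₀ - 1‖ ≤ ‖s₀‖ + 1 := by
        have := norm_sub_le s₀ 1
        rwa [norm_one] at this
      have a3 := norm_nonneg s₀
      nlinarith
    have hpos : 0 < ‖1 + (s₀ + x * w - s₀)‖ := by linarith
    simp only [hg, hF]
    rw [norm_div, norm_pow, div_le_iff₀ (by positivity)]
    calc ‖GG (s₀ + x * w)‖ ≤ C * (1 + ‖s₀ + x * w‖) ^ B := h2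
      _ ≤ C * ((‖s₀‖ + 3) * ‖1 + (s₀ + x * w - s₀)‖) ^ B := by gcongr
      _ = C * (‖s₀‖ + 3) ^ B * ‖1 + (s₀ + x * w - s₀)‖ ^ B := by rw [mul_pow]; ring
      _ ≤ C * (‖s₀‖ + 3) ^ B * ‖1 + (s₀ + x * w - s₀)‖ ^ M := by
        gcongr
  have hmain := Pool.Agent.W184.hp_unit (g := g) (h := fun y => g ((y : ℂ) * I)) (p := 2)
    (C := C * (‖s₀‖ + 3) ^ B) (by norm_num)
    (fun w hw => (hgd w (le_of_lt hw)).differentiableWithinAt) hb
    (fun y _ => ((hgd ((y : ℂ) * I) (by simp)).continuousAt.tendsto).mono_left nhdsWithin_le_nhds)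
  set q : ℝ → ℝ := fun u => ‖GG ((σ : ℂ) + u * I)‖ ^ 2 / (1 + (u - τ) ^ 2) ^ M with hq
  have hgy : ∀ y : ℝ, ‖g ((y : ℂ) * I)‖ ^ (2:ℝ) = q (τ + x * y) := by
    intro y
    simp only [hg, hF, hq]
    rw [norm_div, norm_pow]
    have e1 : s₀ + (x : ℂ) * ((y : ℂ) * I) = (σ : ℂ) + ((τ + x * y : ℝ) : ℂ) * I := by
      rw [hs₀]; push_cast; ring
    have e2 : ‖1 + (s₀ + (x : ℂ) * ((y : ℂ) * I) - s₀)‖ ^ 2 = 1 + (τ + x * y - τ) ^ 2 := by
      have e3 : 1 + (s₀ + (x : ℂ) * ((y : ℂ) * I) - s₀) = ((1:ℝ) : ℂ) + ((x * y : ℝ) : ℂ) * I := by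
        push_cast; ring
      rw [e3, ← Complex.normSq_eq_norm_sq, Complex.normSq_add_mul_I]
      ring
    rw [show (2:ℝ) = ((2:ℕ):ℝ) by norm_num, Real.rpow_natCast, div_pow, ← pow_mul, mul_comm M 2, pow_mul, e2, e1]
  have hq0 : ∀ u, 0 ≤ q u := fun u => by simp only [hq]; positivity
  have hqx : Integrable fun y : ℝ => q (τ + x * y) := by
    have h1 := hint.comp_add_left τ
    exact h1.comp_mul_left' hx.ne'
  have hI : ∫ y : ℝ, Real.pi⁻¹ / (1 + y ^ 2) * ‖g ((y : ℂ) * I)‖ ^ (2:ℝ) ≤ x⁻¹ * Jf M σ τ := by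
    have h1 : ∫ y : ℝ, Real.pi⁻¹ / (1 + y ^ 2) * ‖g ((y : ℂ) * I)‖ ^ (2:ℝ) ≤ ∫ y : ℝ, q (τ + x * y) := by
      refine integral_mono_of_nonneg (Eventually.of_forall fun y => ?_) hqx (Eventually.of_forall fun y => ?_)
      · have := Real.pi_pos
        simp only [Pi.zero_apply]
        positivity
      · simp only
        rw [hgy]
        refine mul_le_of_le_one_left (hq0 _) ?_
        have hpi := Real.pi_gt_three
        rw [div_le_one (by positivity)]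
        have a1 : Real.pi⁻¹ ≤ 1 := inv_le_one_of_one_le₀ (by linarith)
        nlinarith [sq_nonneg y]
    refine h1.trans (le_of_eq ?_)
    have h2 := Measure.integral_comp_mul_left (fun u => q (τ + u)) x
    rw [h2, integral_add_left_eq_self (fun u => q u) τ, abs_of_pos (by positivity), smul_eq_mul]
    rfl
  have hg1 : ‖GG (((σ + x : ℝ) : ℂ) + τ * I)‖ ^ 2 ≤ 4 ^ M * ‖g 1‖ ^ (2:ℝ) := by
    simp only [hg, hF]
    have e1 : s₀ + (x : ℂ) * 1 = ((σ + x : ℝ) : ℂ) + τ * I := by rw [hs₀]; push_cast; ring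
    have e2 : (1 : ℂ) + (s₀ + (x : ℂ) * 1 - s₀) = ((1 + x : ℝ) : ℂ) := by push_cast; ring
    rw [e2, e1, norm_div, norm_pow, Complex.norm_real, Real.norm_of_nonneg (by positivity),
      show (2:ℝ) = ((2:ℕ):ℝ) by norm_num, Real.rpow_natCast, div_pow, ← pow_mul, mul_comm M 2, pow_mul]
    have h1 : ((1 + x) ^ 2) ^ M ≤ 4 ^ M := pow_le_pow_left₀ (by positivity) (by nlinarith) M
    have h2 : (0:ℝ) < ((1 + x) ^ 2) ^ M := by positivity
    rw [mul_div_assoc', le_div_iff₀ h2, mul_comm]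
    exact mul_le_mul_of_nonneg_right h1 (by positivity)
  calc ‖GG (((σ + x : ℝ) : ℂ) + τ * I)‖ ^ 2 ≤ 4 ^ M * ‖g 1‖ ^ (2:ℝ) := hg1
    _ ≤ 4 ^ M * (x⁻¹ * Jf M σ τ) := by
      refine mul_le_mul_of_nonneg_left (hmain.trans hI) (by positivity)
    _ = _ := by ring

end

end Pool.Agent.H395.LD
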