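import Pool.Agent.H395.LD.ZupA
import Pool.Graph.R_seed8.Y674.LD.Z3

set_option autoImplicit false

/-! `P_ZUP`: upper bounds for zeta near the critical line at almost all heights. -/

namespace Pool.Agent.H395.LD

open Filter Topology MeasureTheory Complex Pool.Agent.Y24 Pool.Agent.Y745.LD

noncomputable section

lemma peetre (a b c : ℝ) : 1 + (a - c) ^ 2 ≤ 2 * (1 + (a - b) ^ 2) * (1 + (b - c) ^ 2) := by
  nlinarith [sq_nonneg ((a - b) - (b - c)), mul_nonneg (sq_nonneg (a - b)) (sq_nonneg (b - c))]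

lemma Jf_nonneg (M : ℕ) (σ τ : ℝ) : 0 ≤ Jf M σ τ :=
  integral_nonneg fun u => by positivity

lemma Jf_shift : ∃ M0 : ℕ, ∀ M : ℕ, M0 ≤ M → ∀ σ : ℝ, 0 ≤ σ → ∀ u t : ℝ,
    Jf M σ u ≤ 2 ^ M * (1 + (u - t) ^ 2) ^ M * Jf M σ t := by
  obtain ⟨M0, hM0⟩ := Jf_int
  refine ⟨M0, fun M hM σ hσ u t => ?_⟩
  unfold Jf
  rw [← integral_const_mul]
  refine integral_mono (hM0 M hM σ hσ u) ((hM0 M hM σ hσ t).const_mul _) fun v => ?_
  simp only
  have h1 : (1 + (v - t) ^ 2) ^ M ≤ (2 * (1 + (v - u) ^ 2) * (1 + (u - t) ^ 2)) ^ M :=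
    pow_le_pow_left₀ (by positivity) (peetre v u t) M
  rw [mul_pow, mul_pow] at h1
  rw [mul_div_assoc', div_le_div_iff₀ (by positivity) (by positivity)]
  calc ‖GG ((σ : ℂ) + v * I)‖ ^ 2 * (1 + (v - t) ^ 2) ^ M ≤
      ‖GG ((σ : ℂ) + v * I)‖ ^ 2 * (2 ^ M * (1 + (v - u) ^ 2) ^ M * (1 + (u - t) ^ 2) ^ M) := by gcongr
    _ = _ := by ring

lemma GG_le {w : ℂ} (h : 0 ≤ w.re) (h1 : w ≠ 1) : ‖GG w‖ ≤ ‖riemannZeta w‖ := by
  unfold GG
  rw [Z1_ne h1, norm_div, norm_mul]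
  have h2 : ‖w - 1‖ ≤ ‖w + 1‖ := by
    rw [Complex.norm_def, Complex.norm_def]
    apply Real.sqrt_le_sqrt
    rw [Complex.normSq_apply, Complex.normSq_apply]
    simp only [Complex.sub_re, Complex.sub_im, Complex.add_re, Complex.add_im, Complex.one_re, Complex.one_im]
    nlinarith
  have h3 := one_le_add h
  rw [div_le_iff₀ (by linarith)]
  calc ‖w - 1‖ * ‖riemannZeta w‖ ≤ ‖w + 1‖ * ‖riemannZeta w‖ := by gcongr
    _ = _ := mul_comm _ _

lemma zeta_le_GG {w : ℂ} (h1 : 2 ≤ w.im) : ‖riemannZeta w‖ ≤ 2 * ‖GG w‖ := by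
  have hne : w ≠ 1 := by
    rintro rfl; norm_num at h1
  have h2 : 2 ≤ ‖w - 1‖ := by
    have h3 := Complex.abs_im_le_norm (w - 1)
    rw [Complex.sub_im, Complex.one_im, sub_zero] at h3
    have := le_abs_self w.im
    linarith
  have h3 : ‖w + 1‖ ≤ 2 * ‖w - 1‖ := by
    have e : w + 1 = (w - 1) + 2 := by ring
    have h4 := norm_add_le (w - 1) 2
    rw [← e, Complex.norm_ofNat] at h4
    linarith
  have h4 : 0 < ‖w + 1‖ := by
    rw [norm_pos_iff]
    intro h0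
    have := congrArg Complex.im h0
    simp at this
    linarith
  unfold GG
  rw [Z1_ne hne, norm_div, norm_mul, mul_div_assoc', le_div_iff₀ h4]
  calc ‖riemannZeta w‖ * ‖w + 1‖ ≤ ‖riemannZeta w‖ * (2 * ‖w - 1‖) := by gcongr
    _ = _ := by ring

/-- far from the height -/
lemma GG_far {σ T t u : ℝ} (h1 : 3 / 8 ≤ σ) (h2 : σ ≤ 3 / 4) (hT : 0 < T) (ht : t ∈ Set.Icc T (2 * T))
    (hu : u ∉ Set.Icc (T / 2) (4 * T)) :
    ‖GG ((σ : ℂ) + u * I)‖ ^ 2 ≤ 3744 * (1 + (u - t) ^ 2) := by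
  have hne : (σ : ℂ) + u * I ≠ 1 := by
    intro h
    have := congrArg Complex.re h
    simp at this
    linarith
  have h3 := (GG_le (w := (σ : ℂ) + u * I) (by simp; linarith) hne).trans (Pool.Agent.W184.zeta58 h1 h2)
  have h4 : (1 + |u|) ^ ((5:ℝ) / 8) ≤ 1 + |u| := by
    have := Real.rpow_le_rpow_of_exponent_le (x := 1 + |u|) (by linarith [abs_nonneg u]) (show (5:ℝ) / 8 ≤ 1 by norm_num)
    rwa [Real.rpow_one] at this
  have h5 : T / 2 ≤ |u - t| := by
    rw [Set.mem_Icc, not_and_or, not_le, not_le] at hu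
    rcases hu with h | h
    · rw [abs_of_nonpos (by linarith [ht.1])]; linarith [ht.1]
    · rw [abs_of_nonneg (by linarith [ht.2])]; linarith [ht.2]
  have h6 : |u| ≤ |u - t| + |t| := by
    calc |u| = |(u - t) + t| := by ring_nf
      _ ≤ _ := abs_add_le _ _
  have h7 : |t| ≤ 4 * |u - t| := by
    rw [abs_of_nonneg (by linarith [ht.1] : 0 ≤ t)]
    linarith [ht.2]
  have h8 : ‖GG ((σ : ℂ) + u * I)‖ ≤ 12 * (1 + 5 * |u - t|) := by
    refine h3.trans ?_
    have : (1 + |u|) ≤ 1 + 5 * |u - t| := by linarith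
    linarith
  calc ‖GG ((σ : ℂ) + u * I)‖ ^ 2 ≤ (12 * (1 + 5 * |u - t|)) ^ 2 :=
        pow_le_pow_left₀ (norm_nonneg _) h8 2
    _ ≤ 3744 * (1 + (u - t) ^ 2) := by
      have := sq_abs (u - t)
      nlinarith [sq_nonneg (5 - |u - t|)]

lemma int_cauchy (t : ℝ) : Integrable fun u : ℝ => 1 / (1 + (u - t) ^ 2) := by
  have h1 := integrable_inv_one_add_sq.comp_sub_right t
  simpa [one_div] using h1

lemma int_cauchy_val (t : ℝ) : ∫ u : ℝ, 1 / (1 + (u - t) ^ 2) = Real.pi := by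
  have h1 := integral_sub_right_eq_self (μ := (volume : Measure ℝ)) (fun y : ℝ => (1 + y ^ 2)⁻¹) t
  rw [integral_univ_inv_one_add_sq] at h1
  rw [← h1]
  simp [one_div]

/-- the smoothed square of zeta -/
def Kf (T t : ℝ) : ℝ := ∫ u in (T / 2)..(4 * T), ‖riemannZeta (1 / 2 + u * I)‖ ^ 2 * (1 / (1 + (u - t) ^ 2))

lemma zeta_line_cont : Continuous fun u : ℝ => riemannZeta (1 / 2 + u * I) := by
  refine continuous_iff_continuousAt.mpr fun t => ?_
  have h1 : (1 / 2 + (t : ℂ) * I) ≠ 1 := by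
    intro h
    have := congrArg Complex.re h
    simp at this
  exact ContinuousAt.comp (g := riemannZeta) (f := fun u : ℝ => 1 / 2 + (u : ℂ) * I)
    (differentiableAt_riemannZeta h1).continuousAt (by fun_prop)

lemma Jf_le_Kf : ∃ M0 : ℕ, ∀ M : ℕ, M0 ≤ M → ∀ T t : ℝ, 4 ≤ T → t ∈ Set.Icc T (2 * T) →
    Jf M (1 / 2) t ≤ 3744 * Real.pi + Kf T t := by
  obtain ⟨M0, hM0⟩ := Jf_int
  refine ⟨max M0 2, fun M hM T t hT ht => ?_⟩
  have hM2 : 2 ≤ M := (le_max_right _ _).trans hM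
  have hint := hM0 M ((le_max_left _ _).trans hM) (1 / 2) (by norm_num) t
  set f : ℝ → ℝ := fun u => ‖riemannZeta (1 / 2 + u * I)‖ ^ 2 * (1 / (1 + (u - t) ^ 2)) with hf
  have hfc : Continuous f := (zeta_line_cont.norm.pow 2).mul (by
    refine continuous_const.div (by fun_prop) fun u => ?_
    positivity)
  have hfi : Integrable ((Set.Icc (T / 2) (4 * T)).indicator f) := by
    rw [integrable_indicator_iff measurableSet_Icc]
    exact hfc.integrableOn_Icc
  have hK : Kf T t = ∫ u : ℝ, (Set.Icc (T / 2) (4 * T)).indicator f u := by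
    rw [integral_indicator measurableSet_Icc, integral_Icc_eq_integral_Ioc,
      ← intervalIntegral.integral_of_le (by linarith)]
    rfl
  have hc := (int_cauchy t).const_mul 3744
  rw [hK, ← int_cauchy_val t, ← integral_const_mul, ← integral_add hc hfi]
  unfold Jf
  refine integral_mono hint (hc.add hfi) fun u => ?_
  simp only [Pi.add_apply]
  set v := 1 + (u - t) ^ 2 with hv
  have hv1 : 1 ≤ v := by rw [hv]; nlinarith [sq_nonneg (u - t)]
  have hvM : v ^ 2 ≤ v ^ M := pow_le_pow_right₀ hv1 hM2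
  have hv0 : 0 < v := by linarith
  have e12 : (((1 / 2 : ℝ) : ℝ) : ℂ) = 1 / 2 := by norm_num
  by_cases hu : u ∈ Set.Icc (T / 2) (4 * T)
  · rw [Set.indicator_of_mem hu]
    have h1 : ‖GG (((1 / 2 : ℝ) : ℂ) + u * I)‖ ^ 2 / v ^ M ≤ f u := by
      simp only [hf]
      rw [← hv, mul_one_div]
      rw [e12]
      have h2 := GG_le (w := 1 / 2 + u * I) (by simp) (by
        intro h
        have := congrArg Complex.re h
        simp at this)
      have h3 : v ≤ v ^ M := by nlinarith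
      exact div_le_div₀ (by positivity) (pow_le_pow_left₀ (norm_nonneg _) h2 2) hv0 h3
    have h2 : 0 ≤ 3744 * (1 / v) := by positivity
    linarith
  · rw [Set.indicator_of_notMem hu, add_zero]
    have h1 := GG_far (σ := 1 / 2) (by norm_num) (by norm_num) (by linarith) ht hu
    rw [← hv] at h1
    rw [div_le_iff₀ (by positivity)]
    calc ‖GG (((1 / 2 : ℝ) : ℂ) + u * I)‖ ^ 2 ≤ 3744 * v := h1
      _ = 3744 * (1 / v) * v ^ 2 := by field_simp
      _ ≤ 3744 * (1 / v) * v ^ M := by gcongr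

/-- to the left of the critical line -/
lemma Jf_left : ∃ M0 : ℕ, ∀ M : ℕ, M0 ≤ M → ∃ K : ℝ, 0 < K ∧ ∀ᶠ T : ℝ in atTop, ∀ t ∈ Set.Icc T (2 * T),
    ∀ τ : ℝ, |τ - t| ≤ 1 →
      Jf (M + 1) (1 / 2 - 2 / Real.log T) τ ≤ K * (1 + Real.log T * Jf M (1 / 2) t) := by
  obtain ⟨M1, hM1⟩ := Jf_int
  obtain ⟨M2, hM2⟩ := Jf_shift
  obtain ⟨M3, hM3⟩ := hp_point
  refine ⟨max (max M1 M2) (max M3 1), fun M hM => ?_⟩
  have hMa : M1 ≤ M := (le_trans (le_max_left _ _) (le_max_left _ _)).trans hM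
  have hMb : M2 ≤ M := (le_trans (le_max_right _ _) (le_max_left _ _)).trans hM
  have hMc : M3 ≤ M := (le_trans (le_max_left _ _) (le_max_right _ _)).trans hM
  have hMd : 1 ≤ M := (le_trans (le_max_right _ _) (le_max_right _ _)).trans hM
  set K1 : ℝ := 3744 + 16 * Real.exp 4 ^ 2 * (4 ^ M * 2 ^ M) with hK1
  have hK1p : 0 < K1 := by positivity
  have hpi := Real.pi_pos
  refine ⟨K1 * (2 ^ M * 2 ^ M) * Real.pi, by positivity, ?_⟩
  filter_upwards [eventually_ge_atTop 200, Real.tendsto_log_atTop.eventually_ge_atTop 16]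
    with T hT hL t ht τ hτ
  have hTp : 0 < T := by linarith
  have hL0 : 0 < Real.log T := by linarith
  set a : ℝ := 2 / Real.log T with ha
  have ha0 : 0 < a := by positivity
  have ha8 : a ≤ 1 / 8 := by
    rw [ha, div_le_iff₀ hL0]; linarith
  have hainv : a⁻¹ ≤ Real.log T := by
    rw [ha, inv_div]; linarith
  have hJ0 := Jf_nonneg M (1 / 2) t
  have h4T : Real.log (4 * T) ≤ 2 * Real.log T := by
    rw [Real.log_mul (by norm_num) hTp.ne']
    have := Real.log_le_log (show (0:ℝ) < 4 by norm_num) (show (4:ℝ) ≤ T by linarith)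
    linarith
  -- the pointwise bound
  have hpt : ∀ u : ℝ, ‖GG (((1 / 2 - a : ℝ) : ℂ) + u * I)‖ ^ 2 ≤
      K1 * (1 + Real.log T * Jf M (1 / 2) t) * (1 + (u - t) ^ 2) ^ M := by
    intro u
    have hv1 : 1 ≤ 1 + (u - t) ^ 2 := by nlinarith [sq_nonneg (u - t)]
    by_cases hu : u ∈ Set.Icc (T / 2) (4 * T)
    · have hu100 : 100 ≤ u := by linarith [hu.1]
      have h1 := Pool.Agent.W184.fe_pos ha0.le ha8 hu100
      have h2 : u ^ a ≤ Real.exp 4 := by
        rw [Real.rpow_def_of_pos (by linarith)]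
        apply Real.exp_le_exp.mpr
        have h3 : Real.log u ≤ 2 * Real.log T := (Real.log_le_log (by linarith) hu.2).trans h4T
        calc Real.log u * a ≤ 2 * Real.log T * a := mul_le_mul_of_nonneg_right h3 ha0.le
          _ = 4 := by rw [ha]; field_simp; norm_num
      have h3 : 1 + 16 / u ≤ 2 := by
        have : 16 / u ≤ 1 := by rw [div_le_one (by linarith)]; linarith
        linarith
      have h4 := zeta_le_GG (w := ((1 / 2 + a : ℝ) : ℂ) + u * I) (by simp; linarith)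
      have hne : ((1 / 2 - a : ℝ) : ℂ) + u * I ≠ 1 := by
        intro h
        have := congrArg Complex.re h
        simp at this
        linarith
      have h5 := GG_le (w := ((1 / 2 - a : ℝ) : ℂ) + u * I) (by simp; linarith) hne
      have h6 : ‖GG (((1 / 2 - a : ℝ) : ℂ) + u * I)‖ ≤
          4 * Real.exp 4 * ‖GG (((1 / 2 + a : ℝ) : ℂ) + u * I)‖ := by
        calc ‖GG (((1 / 2 - a : ℝ) : ℂ) + u * I)‖ ≤ ‖riemannZeta (((1 / 2 - a : ℝ) : ℂ) + u * I)‖ := h5
          _ ≤ u ^ a * (1 + 16 / u) * ‖riemannZeta (((1 / 2 + a : ℝ) : ℂ) + u * I)‖ := h1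
          _ ≤ Real.exp 4 * 2 * (2 * ‖GG (((1 / 2 + a : ℝ) : ℂ) + u * I)‖) := by gcongr
          _ = _ := by ring
      have h7 := hM3 M hMc (1 / 2) (by norm_num) a ha0 (by linarith) u
      have h8 := hM2 M hMb (1 / 2) (by norm_num) u t
      calc ‖GG (((1 / 2 - a : ℝ) : ℂ) + u * I)‖ ^ 2 ≤
          (4 * Real.exp 4 * ‖GG (((1 / 2 + a : ℝ) : ℂ) + u * I)‖) ^ 2 :=
            pow_le_pow_left₀ (norm_nonneg _) h6 2
        _ = 16 * Real.exp 4 ^ 2 * ‖GG (((1 / 2 + a : ℝ) : ℂ) + u * I)‖ ^ 2 := by ring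
        _ ≤ 16 * Real.exp 4 ^ 2 * (4 ^ M * a⁻¹ * Jf M (1 / 2) u) := by gcongr
        _ ≤ 16 * Real.exp 4 ^ 2 * (4 ^ M * Real.log T * (2 ^ M * (1 + (u - t) ^ 2) ^ M * Jf M (1 / 2) t)) := by
            have h9 := Jf_nonneg M (1 / 2) u
            gcongr
        _ = 16 * Real.exp 4 ^ 2 * (4 ^ M * 2 ^ M) * (Real.log T * Jf M (1 / 2) t) * (1 + (u - t) ^ 2) ^ M := by
            ring
        _ ≤ K1 * (1 + Real.log T * Jf M (1 / 2) t) * (1 + (u - t) ^ 2) ^ M := by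
            have e1 : 16 * Real.exp 4 ^ 2 * (4 ^ M * 2 ^ M) ≤ K1 := by rw [hK1]; linarith
            gcongr
            linarith
    · have h1 := GG_far (σ := 1 / 2 - a) (by linarith) (by linarith) hTp ht hu
      have h2 : 1 + (u - t) ^ 2 ≤ (1 + (u - t) ^ 2) ^ M := le_self_pow₀ hv1 (by omega)
      calc ‖GG (((1 / 2 - a : ℝ) : ℂ) + u * I)‖ ^ 2 ≤ 3744 * (1 + (u - t) ^ 2) := h1
        _ ≤ 3744 * 1 * (1 + (u - t) ^ 2) ^ M := by
            rw [mul_one]; gcongr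
        _ ≤ K1 * (1 + Real.log T * Jf M (1 / 2) t) * (1 + (u - t) ^ 2) ^ M := by
            have e1 : 3744 ≤ K1 := by
              rw [hK1]
              have : 0 ≤ 16 * Real.exp 4 ^ 2 * (4 ^ M * 2 ^ M) := by positivity
              linarith
            have e2 : 0 ≤ Real.log T * Jf M (1 / 2) t := by positivity
            gcongr
            linarith
  set Q := K1 * (1 + Real.log T * Jf M (1 / 2) t) with hQ
  have hQ0 : 0 ≤ Q := by positivity
  have hfin : Jf (M + 1) (1 / 2 - a) τ ≤ ∫ u : ℝ, Q * (2 ^ M * 2 ^ M) * (1 / (1 + (u - τ) ^ 2)) := by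
    unfold Jf
    refine integral_mono (hM1 (M + 1) (by omega) (1 / 2 - a) (by linarith) τ)
      ((int_cauchy τ).const_mul _) fun u => ?_
    simp only
    have h1 : (1 + (u - t) ^ 2) ^ M ≤ 2 ^ M * 2 ^ M * (1 + (u - τ) ^ 2) ^ M := by
      have h2 := peetre u τ t
      have h3 : 1 + (τ - t) ^ 2 ≤ 2 := by
        have := sq_le_sq' (abs_le.mp hτ).1 (abs_le.mp hτ).2
        linarith
      calc (1 + (u - t) ^ 2) ^ M ≤ (2 * 2 * (1 + (u - τ) ^ 2)) ^ M := by
            refine pow_le_pow_left₀ (by positivity) ?_ M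
            have h4 : 0 ≤ 1 + (u - τ) ^ 2 := by positivity
            nlinarith
        _ = _ := by rw [mul_pow, mul_pow]
    rw [div_le_iff₀ (by positivity)]
    calc ‖GG (((1 / 2 - a : ℝ) : ℂ) + u * I)‖ ^ 2 ≤ Q * (1 + (u - t) ^ 2) ^ M := hpt u
      _ ≤ Q * (2 ^ M * 2 ^ M * (1 + (u - τ) ^ 2) ^ M) := by gcongr
      _ = _ := by field_simp; ring
  refine hfin.trans (le_of_eq ?_)
  rw [integral_const_mul, int_cauchy_val, hQ]
  ring

end

end Pool.Agent.H395.LD
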